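import Mathlib
import Pool.Agent.Run7.h80.Sal.Tr
import Pool.Agent.Run7.h80.Sym.Glue
import Pool.Agent.Run7.h80.Sal.Core

/-!
# The trace polynomial of a composition, and Chebyshev polynomials
-/

set_option autoImplicit false

open Real Metric Polynomial Filter Topology

namespace Pool.Agent.Run7.h80.Dyn

open Pool.Agent.Run7.h80.Sym Pool.Agent.Run7.h80.Comp Pool.Agent.Run7.h80.Sal

lemma pcomp_scale (g : ℤ[X]) (s a : ℂ) :
    pcomp g (s * a) s = s ^ g.natDegree * (g.map (Int.castRingHom ℂ)).eval a := by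
  rw [pcomp_eq]
  have h1 := scaleRoots_eval₂_mul (p := g.map (Int.castRingHom ℂ)) (RingHom.id ℂ) a s
  rw [natDegree_map_eq_of_injective inj] at h1
  exact h1

lemma eval_pcomp (g A B : ℤ[X]) (z : ℂ) :
    ((pcomp g A B).map (Int.castRingHom ℂ)).eval z =
      pcomp g ((A.map (Int.castRingHom ℂ)).eval z) ((B.map (Int.castRingHom ℂ)).eval z) :=
  map_pcomp ((evalRingHom z).comp (mapRingHom (Int.castRingHom ℂ))) g A B

lemma AA_comp (g k : ℤ[X]) : AA (g.comp k) = pcomp g (AA k) (X ^ k.natDegree) := by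
  apply Polynomial.map_injective (Int.castRingHom ℂ) inj
  apply eq_of_eval_ne
  intro z hz
  rw [AA_eval _ hz, eval_pcomp, AA_eval k hz, Polynomial.map_pow, map_X, eval_pow, eval_X,
    pcomp_scale, natDegree_comp, Polynomial.map_comp, eval_comp, ← pow_mul]
  congr 2
  exact Nat.mul_comm _ _

/-- the Mahler measure of the reciprocal polynomial of a trace polynomial -/
lemma log_AA {f : ℤ[X]} (hf : |f.leadingCoeff| = 1) :
    Real.log ((AA f).map (Int.castRingHom ℂ)).mahlerMeasure =
      ((rts f).map fun y => Real.log (X ^ 2 - C y * X + 1 : ℂ[X]).mahlerMeasure).sum := by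
  have h1 := AA_pen_prod f 0
  have h2 : pen ((AA f).map (Int.castRingHom ℂ)) f.natDegree 0 =
      (AA f).map (Int.castRingHom ℂ) := by
    rw [pen, C_0, zero_mul, sub_zero]
  rw [h2, C_0, sub_zero, natDegree_map_eq_of_injective inj, Nat.sub_self, pow_zero, mul_one,
    leadingCoeff_map_of_injective inj] at h1
  have hq : ∀ y : ℂ, 1 ≤ (X ^ 2 - C y * X + 1 : ℂ[X]).mahlerMeasure := by
    intro y
    have h3 := leadingCoeff_le_mahlerMeasure (X ^ 2 - C y * X + 1 : ℂ[X])
    have h4 : (X ^ 2 - C y * X + 1 : ℂ[X]).Monic := by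
      monicity!
    rwa [h4.leadingCoeff, norm_one] at h3
  have key : ∀ R : Multiset ℂ, Real.log ((R.map fun y =>
      (X ^ 2 - C y * X + 1 : ℂ[X])).prod).mahlerMeasure =
        (R.map fun y => Real.log (X ^ 2 - C y * X + 1 : ℂ[X]).mahlerMeasure).sum ∧
      0 < ((R.map fun y => (X ^ 2 - C y * X + 1 : ℂ[X])).prod).mahlerMeasure := by
    intro R
    induction R using Multiset.induction_on with
    | empty => simp
    | cons a R ih =>
      rw [Multiset.map_cons, Multiset.prod_cons, Multiset.map_cons, Multiset.sum_cons,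
        mahlerMeasure_mul]
      have h5 : 0 < (X ^ 2 - C a * X + 1 : ℂ[X]).mahlerMeasure := by linarith [hq a]
      refine ⟨?_, mul_pos h5 ih.2⟩
      rw [Real.log_mul h5.ne' ih.2.ne', ih.1]
  rw [h1, mahlerMeasure_mul, mahlerMeasure_const]
  have h6 : ‖(Int.castRingHom ℂ) f.leadingCoeff‖ = 1 := by
    rw [eq_intCast, Complex.norm_intCast]
    exact_mod_cast hf
  rw [h6, one_mul]
  exact (key _).1

lemma exists_add_inv (w : ℂ) : ∃ z : ℂ, z ≠ 0 ∧ z + z⁻¹ = w := by
  have h1 : ((X ^ 2 - C w * X + 1 : ℂ[X])).degree ≠ 0 := by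
    have : (X ^ 2 - C w * X + 1 : ℂ[X]).degree = 2 := by compute_degree!
    rw [this]
    norm_num
  obtain ⟨z, hz⟩ := IsAlgClosed.exists_root _ h1
  have h2 : z ^ 2 - w * z + 1 = 0 := by
    have : eval z (X ^ 2 - C w * X + 1 : ℂ[X]) = 0 := hz
    simpa using this
  have hz0 : z ≠ 0 := by
    rintro rfl
    norm_num at h2
  refine ⟨z, hz0, ?_⟩
  field_simp
  linear_combination h2

/-- polynomials without an inner coefficient are Chebyshev polynomials -/
lemma cheb_of_no_inner {k : ℤ[X]} (hk : 0 < k.natDegree)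
    (h : ∀ i, 0 < i → i < k.natDegree → (AA k).coeff i = 0) :
    k = C k.leadingCoeff * Chebyshev.C ℤ k.natDegree + C ((AA k).coeff k.natDegree) := by
  set m := k.natDegree with hm
  have hk0 : k ≠ 0 := by
    rintro rfl
    rw [natDegree_zero] at hm
    omega
  apply Polynomial.map_injective (Int.castRingHom ℂ) inj
  apply Polynomial.funext
  intro w
  obtain ⟨z, hz, rfl⟩ := exists_add_inv w
  have hd := (AA_natDegree k hk0)
  have h1 := AA_eval k hz
  have h2 : ((AA k).map (Int.castRingHom ℂ)).eval z =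
      (k.leadingCoeff : ℂ) + ((AA k).coeff m : ℂ) * z ^ m + (k.leadingCoeff : ℂ) * z ^ (2 * m) := by
    rw [eval_eq_sum_range, natDegree_map_eq_of_injective inj, hd.1]
    have h3 : ∀ i ∈ Finset.range (2 * m + 1), ((AA k).map (Int.castRingHom ℂ)).coeff i * z ^ i =
        (if i = 0 then (k.leadingCoeff : ℂ) else 0) +
          (if i = m then ((AA k).coeff m : ℂ) * z ^ m else 0) +
          (if i = 2 * m then (k.leadingCoeff : ℂ) * z ^ (2 * m) else 0) := by
      intro i hi
      have hi' : i ≤ 2 * m := by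
        have := Finset.mem_range.1 hi
        omega
      have hlc : (AA k).coeff (2 * m) = k.leadingCoeff := by
        rw [← hd.2, leadingCoeff, hd.1]
      have h0 : (AA k).coeff 0 = k.leadingCoeff := by
        rw [← AA_sym k hk0 0 (by omega), Nat.sub_zero, hlc]
      rw [coeff_map, eq_intCast]
      by_cases e0 : i = 0
      · subst e0
        rw [if_pos rfl, if_neg (by omega), if_neg (by omega), h0]
        ring
      by_cases e1 : i = m
      · subst e1
        rw [if_neg (by omega), if_pos rfl, if_neg (by omega)]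
        ring
      by_cases e2 : i = 2 * m
      · subst e2
        rw [if_neg (by omega), if_neg (by omega), if_pos rfl, hlc]
        ring
      rw [if_neg e0, if_neg e1, if_neg e2]
      rcases lt_or_gt_of_ne e1 with h5 | h5
      · rw [h i (by omega) h5]
        simp
      · have h6 := AA_sym k hk0 i hi'
        rw [← hm, h (2 * m - i) (by omega) (by omega)] at h6
        rw [← h6]
        simp
    rw [Finset.sum_congr rfl h3, Finset.sum_add_distrib, Finset.sum_add_distrib,
      Finset.sum_ite_eq', Finset.sum_ite_eq', Finset.sum_ite_eq', if_pos (by simp),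
      if_pos (by rw [Finset.mem_range]; omega), if_pos (by simp)]
  have hz0 : z ^ m ≠ 0 := pow_ne_zero _ hz
  have h7 : (k.map (Int.castRingHom ℂ)).eval (z + z⁻¹) =
      (k.leadingCoeff : ℂ) * (z ^ m + z⁻¹ ^ m) + ((AA k).coeff m : ℂ) := by
    rw [h2] at h1
    have h8 : z ^ (2 * m) = z ^ m * z ^ m := by rw [two_mul, pow_add]
    rw [h8] at h1
    apply mul_left_cancel₀ hz0
    rw [← h1, inv_pow]
    field_simp
    ring
  rw [h7, Polynomial.map_add, Polynomial.map_mul, map_C, map_C, Chebyshev.map_C, eval_add, eval_mul,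
    eval_C, eval_C]
  have h9 : (Chebyshev.C ℂ m).eval (z + z⁻¹) = z ^ m + z⁻¹ ^ m := by
    rw [← dickson_one_one_eq_chebyshev_C]
    apply dickson_one_one_eval_add_inv
    exact mul_inv_cancel₀ hz
  rw [h9]
  simp

/-- **the Mahler measure of the reciprocal polynomial of a composition** -/
theorem AA_bound {g k : ℤ[X]} (hg : Irreducible g) (hN : 3 ≤ g.natDegree) (hk : 0 < k.natDegree)
    (hex : ∀ c : ℤ, k ≠ Chebyshev.C ℤ k.natDegree + C c ∧ k ≠ -Chebyshev.C ℤ k.natDegree + C c) :
    max 0.0042 ((g.natDegree : ℝ) / 400000) ≤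
      Real.log ((AA (g.comp k)).map (Int.castRingHom ℂ)).mahlerMeasure := by
  have hk0 : k ≠ 0 := by
    rintro rfl
    rw [natDegree_zero] at hk
    omega
  have hexc : ∀ t ∈ rts g, ¬ Exc t := by
    intro t ht he
    have := deg_le_two (m := 0) hg ((mem_rts hg.ne_zero).1 ht) (Or.inl he)
    omega
  have hcnt : cntE Exc g = g.natDegree := by
    classical
    rw [cntE, ← card_rts]
    congr 1
    exact Multiset.filter_eq_self.2 hexc
  rw [AA_comp]
  have hd := AA_natDegree k hk0
  have hboth : Real.exp (cntE Exc g / 400000) ≤ MM (pcomp g (AA k) (X ^ k.natDegree)) ∧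
      (0 < cntE Exc g → Real.exp 0.0042 ≤ MM (pcomp g (AA k) (X ^ k.natDegree))) := by
    by_cases hmid : ∃ i, 0 < i ∧ i < k.natDegree ∧ (AA k).coeff i ≠ 0
    · refine symmetric hk hd.1 ?_ hmid hg.ne_zero
      ext i
      rw [coeff_reverse, hd.1]
      by_cases hi : i ≤ 2 * k.natDegree
      · rw [revAt_le hi, AA_sym k hk0 i hi]
      · rw [revAt_eq_self_of_lt (by omega)]
    · push Not at hmid
      have hch := cheb_of_no_inner hk hmid
      refine large_case hd.1 hk ?_ hg.ne_zero le_rfl
      rw [hd.2]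
      by_contra hcon
      have h1 := Int.one_le_abs (leadingCoeff_ne_zero.2 hk0)
      have h2 : |k.leadingCoeff| = 1 := by omega
      rcases abs_eq_abs.1 (h2.trans abs_one.symm) with h3 | h3
      · rw [h3, C_1, one_mul] at hch
        exact (hex _).1 hch
      · rw [h3, C_neg, C_1, neg_one_mul] at hch
        exact (hex _).2 hch
  rw [hcnt] at hboth
  obtain ⟨b1, b2⟩ := hboth
  have b2' := b2 (by omega)
  have hM : MM (pcomp g (AA k) (X ^ k.natDegree)) =
      ((pcomp g (AA k) (X ^ k.natDegree)).map (Int.castRingHom ℂ)).mahlerMeasure := rfl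
  rw [← hM]
  have hpos : 0 < MM (pcomp g (AA k) (X ^ k.natDegree)) := (Real.exp_pos _).trans_le b2'
  exact max_le ((Real.le_log_iff_exp_le hpos).2 b2') ((Real.le_log_iff_exp_le hpos).2 b1)

end Pool.Agent.Run7.h80.Dyn
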