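import Mathlib
import Pool.Agent.Run7.h80.Dyn.A
import Pool.Agent.Run7.h22.Rel9
import Pool.Agent.Run7.h22.Sal2

/-!
# Heights of the numbers `α` and the trace polynomial of `α + 1 / α`
-/

set_option autoImplicit false

open Finset Module Polynomial NumberField Height Filter Topology

namespace Pool.Agent.Run7.h80.Dyn

open Pool.Agent.H388SL Pool.Agent.Run7.h80.Sym Pool.Agent.Run7.h80.Comp Pool.Agent.Run7.h80.Sal

variable {K : Type} [Field K] [NumberField K]

lemma rts_minpoly {γ : K} (hγ : IsIntegral ℤ γ) (hc : CInj γ) :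
    rts (minpoly ℤ γ) = (Finset.univ : Finset (K →ₐ[ℚ] ℂ)).val.map fun τ => τ γ := by
  have h1 : (minpoly ℤ γ).map (Int.castRingHom ℂ) = (minpoly ℚ γ).map (algebraMap ℚ ℂ) := by
    rw [minpoly.isIntegrallyClosed_eq_field_fractions' ℚ hγ, Polynomial.map_map]
    congr 1
  rw [rts, h1, minpoly_map_eq hc, Finset.prod_eq_multiset_prod]
  have h2 : Multiset.map (fun τ : K →ₐ[ℚ] ℂ => (X - C (τ γ) : ℂ[X])) Finset.univ.val =
      Multiset.map (fun a => X - C a) ((Finset.univ : Finset (K →ₐ[ℚ] ℂ)).val.map fun τ => τ γ) := by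
    rw [Multiset.map_map]
    rfl
  rw [h2, roots_multiset_prod_X_sub_C]

lemma finrank_adjoin_eq {x : K} (hx : IsIntegral ℤ x) :
    finrank ℚ (IntermediateField.adjoin ℚ {x}) = (minpoly ℤ x).natDegree := by
  rw [IntermediateField.adjoin.finrank (hx.tower_top),
    minpoly.isIntegrallyClosed_eq_field_fractions' ℚ hx,
    natDegree_map_eq_of_injective (algebraMap ℤ ℚ).injective_int]

/-- sums over the embeddings are sums over the zeros of the minimal polynomial -/
lemma sum_emb_rts {x : K} (hx : IsIntegral ℤ x) (F : ℂ → ℝ) :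
    ((minpoly ℤ x).natDegree : ℝ) * ∑ σ : K →ₐ[ℚ] ℂ, F (σ x) =
      finrank ℚ K * ((rts (minpoly ℤ x)).map F).sum := by
  set E := IntermediateField.adjoin ℚ {x} with hE
  set γ : E := IntermediateField.AdjoinSimple.gen ℚ x with hγ
  have hγx : algebraMap E K γ = x := IntermediateField.AdjoinSimple.algebraMap_gen ℚ x
  have hγi : IsIntegral ℤ γ := by
    rw [← hγx] at hx
    exact (isIntegral_algebraMap_iff (algebraMap E K).injective).mp hx
  have hγm : minpoly ℤ γ = minpoly ℤ x := by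
    rw [← hγx]
    exact (minpoly.algebraMap_eq (algebraMap E K).injective γ).symm
  have h1 : ∑ σ : K →ₐ[ℚ] ℂ, F (σ x) = finrank E K • ∑ σ : E →ₐ[ℚ] ℂ, F (σ γ) :=
    sum_embeddings' x F
  have h2 := rts_minpoly hγi (CInj_gen x)
  rw [hγm] at h2
  have h4 : ((minpoly ℤ x).natDegree : ℝ) = finrank ℚ E := by rw [hE, finrank_adjoin_eq hx]
  have h5 : (finrank ℚ K : ℝ) = finrank ℚ E * finrank E K := by
    rw [← finrank_mul_finrank ℚ E K]
    push_cast
    rfl
  rw [h1, h2, Multiset.map_map, nsmul_eq_mul, h4, h5]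
  have h3 : (Multiset.map (F ∘ fun τ : E →ₐ[ℚ] ℂ => τ γ) (Finset.univ : Finset (E →ₐ[ℚ] ℂ)).val).sum =
      ∑ σ : E →ₐ[ℚ] ℂ, F (σ γ) := rfl
  rw [h3]
  ring

lemma pcomp_scale' {R : Type*} [CommRing R] [CharZero R] (g : ℤ[X]) (s a : R) :
    pcomp g (s * a) s = s ^ g.natDegree * (g.map (Int.castRingHom R)).eval a := by
  rw [pcomp_eq]
  have h1 := scaleRoots_eval₂_mul (p := g.map (Int.castRingHom R)) (RingHom.id R) a s
  rw [natDegree_map_eq_of_injective (Int.castRingHom R).injective_int] at h1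
  exact h1

lemma integral_of_trace {α : K} (h0 : α ≠ 0) (hx : IsIntegral ℤ (α + α⁻¹)) : IsIntegral ℤ α := by
  set f := minpoly ℤ (α + α⁻¹) with hf
  have hm : f.Monic := minpoly.monic hx
  have hd := AA_natDegree f hm.ne_zero
  refine ⟨AA f, ?_, ?_⟩
  · rw [Monic, hd.2]
    exact hm
  · have h1 : eval₂ (algebraMap ℤ K) α (AA f) = (aeval α : ℤ[X] →ₐ[ℤ] K) (AA f) := rfl
    rw [h1]
    have h2 := map_pcomp ((aeval α : ℤ[X] →ₐ[ℤ] K) : ℤ[X] →+* K) f (X ^ 2 + 1) X
    have h3 : ((aeval α : ℤ[X] →ₐ[ℤ] K) : ℤ[X] →+* K) (X ^ 2 + 1) = α * (α + α⁻¹) := by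
      simp
      field_simp
    have h4 : ((aeval α : ℤ[X] →ₐ[ℤ] K) : ℤ[X] →+* K) X = α := by simp
    rw [h3, h4, pcomp_scale'] at h2
    have h5 : (f.map (Int.castRingHom K)).eval (α + α⁻¹) = 0 := by
      rw [eval_map]
      exact minpoly.aeval ℤ (α + α⁻¹)
    rw [h5, mul_zero] at h2
    exact h2

/-- **the height of `α` and the trace polynomial** -/
lemma height_trace {α : K} (h0 : α ≠ 0) (hx : IsIntegral ℤ (α + α⁻¹)) :
    ((minpoly ℤ (α + α⁻¹)).natDegree : ℝ) * (2 * logHeight₁ α) = finrank ℚ K *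
      Real.log ((AA (minpoly ℤ (α + α⁻¹))).map (Int.castRingHom ℂ)).mahlerMeasure := by
  have hα := integral_of_trace h0 hx
  have hx' : IsIntegral ℤ (α⁻¹ + α⁻¹⁻¹) := by rw [inv_inv, add_comm]; exact hx
  have hα' := integral_of_trace (inv_ne_zero h0) hx'
  have h1 : 2 * logHeight₁ α = ∑ σ : K →ₐ[ℚ] ℂ,
      Real.log (X ^ 2 - C (σ (α + α⁻¹)) * X + 1 : ℂ[X]).mahlerMeasure := by
    have h2 : 2 * logHeight₁ α = lam α + lam α⁻¹ := by
      rw [← Pool.Agent.Run7.h22.logHeight₁_eq_lam hα, ← Pool.Agent.Run7.h22.logHeight₁_eq_lam hα',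
        logHeight₁_inv]
      ring
    rw [h2, lam, lam, ← Finset.sum_add_distrib]
    refine Finset.sum_congr rfl fun σ _ => ?_
    have hσ : σ α ≠ 0 := (map_ne_zero σ).2 h0
    have h3 : σ α + (σ α)⁻¹ = σ (α + α⁻¹) := by rw [map_add, map_inv₀]
    rw [mahler_quad hσ h3, Real.log_mul (by positivity) (by positivity), map_inv₀]
  rw [h1, sum_emb_rts hx (fun y => Real.log (X ^ 2 - C y * X + 1 : ℂ[X]).mahlerMeasure),
    log_AA (by rw [(minpoly.monic hx).leadingCoeff]; rfl)]

/-- a quadratic extension containing `α` -/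
lemma exists_ext (x : K) : ∃ (L : Type) (_ : Field L) (_ : NumberField L) (_ : Algebra K L) (α : L),
    α ≠ 0 ∧ α + α⁻¹ = algebraMap K L x := by
  set q : K[X] := X ^ 2 - C x * X + 1 with hq
  have hqd : q.degree = 2 := by
    rw [hq]
    compute_degree!
  have h1 : CharZero q.SplittingField :=
    charZero_of_injective_algebraMap (algebraMap K q.SplittingField).injective
  have h2 : IsScalarTower ℚ K q.SplittingField := inferInstance
  have h3 : FiniteDimensional ℚ q.SplittingField := Module.Finite.trans K q.SplittingField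
  have h4 : NumberField q.SplittingField := ⟨⟩
  have h5 : (q.map (algebraMap K q.SplittingField)).degree ≠ 0 := by
    rw [degree_map, hqd]
    norm_num
  obtain ⟨α, hα⟩ := (SplittingField.splits q).exists_eval_eq_zero h5
  have h6 : α ^ 2 - algebraMap K q.SplittingField x * α + 1 = 0 := by
    have e : ((X ^ 2 - C x * X + 1 : K[X]).map (algebraMap K q.SplittingField)) =
        X ^ 2 - C (algebraMap K q.SplittingField x) * X + 1 := by simp
    have hα' : eval α ((X ^ 2 - C x * X + 1 : K[X]).map (algebraMap K q.SplittingField)) = 0 := hα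
    rw [e] at hα'
    simpa using hα'
  have h0 : α ≠ 0 := by
    rintro rfl
    norm_num at h6
  refine ⟨q.SplittingField, inferInstance, h4, inferInstance, α, h0, ?_⟩
  field_simp
  linear_combination h6

/-- **the canonical height for the Chebyshev map** -/
theorem cheb_height {x : K} (hx : IsIntegral ℤ x) {d : ℕ} (hd : 2 ≤ d) {T : ℕ → K}
    (hT : ∀ (L : Type) [Field L] [Algebra K L] (α : L), α ≠ 0 → α + α⁻¹ = algebraMap K L x →
      ∀ n, algebraMap K L (T n) = α ^ (d ^ n) + (α⁻¹) ^ (d ^ n)) :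
    ∃ h : ℝ, Tendsto (fun n : ℕ => logHeight₁ (T n) / ((finrank ℚ K : ℝ) * (d : ℝ) ^ n)) atTop (𝓝 h) ∧
      ((minpoly ℤ x).natDegree : ℝ) * h =
        Real.log ((AA (minpoly ℤ x)).map (Int.castRingHom ℂ)).mahlerMeasure := by
  obtain ⟨L, _, _, _, α, h0, hα⟩ := exists_ext x
  have h1 := Pool.Agent.Run7.h22.tendsto_cheb_height hd h0
  have hfin : (finrank ℚ L : ℝ) = finrank ℚ K * finrank K L := by
    rw [← finrank_mul_finrank ℚ K L]
    push_cast
    rfl
  have hK : (0 : ℝ) < finrank ℚ K := by exact_mod_cast (finrank_pos : 0 < finrank ℚ K)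
  have hL : (0 : ℝ) < finrank ℚ L := by exact_mod_cast (finrank_pos : 0 < finrank ℚ L)
  have hKL : (0 : ℝ) < finrank K L := by exact_mod_cast (finrank_pos : 0 < finrank K L)
  refine ⟨2 * logHeight₁ α / finrank ℚ L, ?_, ?_⟩
  · refine h1.congr fun n => ?_
    rw [← hT L α h0 hα n, Pool.Agent.Run7.h22.logHeight₁_algebraMap, hfin]
    field_simp
  · have hxL : IsIntegral ℤ (α + α⁻¹) := by
      rw [hα]
      exact hx.algebraMap
    have h2 := height_trace h0 hxL
    have h3 : minpoly ℤ (α + α⁻¹) = minpoly ℤ x := by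
      rw [hα]
      exact minpoly.algebraMap_eq (algebraMap K L).injective x
    rw [h3] at h2
    rw [mul_div_assoc', h2]
    field_simp

end Pool.Agent.Run7.h80.Dyn
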